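import Pool.Agent.H79.QN.Stmts

/-!
# Row `SCH` of the board `qn`: the Schur test for the quadratic form
-/

set_option autoImplicit false

namespace Pool.Agent.H79.QN

open Finset

theorem sch_e_add (s t : ℝ) : e (s + t) = e s * e t := by
  unfold e
  rw [← Complex.exp_add]
  congr 1
  push_cast
  ring

theorem sch_e_conj (t : ℝ) : (starRingEnd ℂ) (e t) = e (-t) := by
  unfold e
  rw [← Complex.exp_conj]
  congr 1
  simp only [map_mul, Complex.conj_ofReal, Complex.conj_I, map_ofNat]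
  push_cast
  ring

theorem sch_e_cont {θ : ℝ → ℝ} (h : Continuous θ) : Continuous (fun x => e (θ x)) := by
  unfold e
  fun_prop

theorem sch_ker_conj (φ : ℝ → ℝ) (u k : ℤ) : ker φ (-u) (-k) = (starRingEnd ℂ) (ker φ u k) := by
  unfold ker
  rw [intervalIntegral.integral_of_le (by norm_num), intervalIntegral.integral_of_le (by norm_num),
    ← integral_conj]
  congr 1
  funext x
  show e (((-u : ℤ) : ℝ) * x + ((-k : ℤ) : ℝ) * φ x) = (starRingEnd ℂ) (e (u * x + k * φ x))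
  rw [sch_e_conj]
  congr 1
  push_cast
  ring

theorem sch_ker_symm (φ : ℝ → ℝ) (z z' : ℤ × ℤ) :
    ‖ker φ (sz z - sz z') (mz z - mz z')‖ = ‖ker φ (sz z' - sz z) (mz z' - mz z)‖ := by
  have h := sch_ker_conj φ (sz z' - sz z) (mz z' - mz z)
  rw [neg_sub, neg_sub] at h
  rw [h, Complex.norm_conj]

theorem sch_ph_mul (φ : ℝ → ℝ) (z z' : ℤ × ℤ) (x : ℝ) :
    ph φ z x * (starRingEnd ℂ) (ph φ z' x) =
      e (((sz z - sz z' : ℤ) : ℝ) * x + ((mz z - mz z' : ℤ) : ℝ) * φ x) := by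
  unfold ph
  rw [sch_e_conj, ← sch_e_add]
  congr 1
  push_cast
  ring

theorem sch_ph_cont (φ : ℝ → ℝ) (hφ : Continuous φ) (z : ℤ × ℤ) : Continuous (ph φ z) := by
  unfold ph
  exact sch_e_cont (by fun_prop)

theorem sch : S_SCH := by
  intro φ Z c R hφ hR hrow
  have hint : ((∫ x in (-1 : ℝ)..1, ‖∑ z ∈ Z, c z * ph φ z x‖ ^ 2 : ℝ) : ℂ) =
      ∑ z ∈ Z, ∑ z' ∈ Z, c z * (starRingEnd ℂ) (c z') *
        ker φ (sz z - sz z') (mz z - mz z') := by
    rw [← intervalIntegral.integral_ofReal]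
    have h1 : ∀ x : ℝ, (((‖∑ z ∈ Z, c z * ph φ z x‖ ^ 2 : ℝ)) : ℂ) =
        ∑ z ∈ Z, ∑ z' ∈ Z, c z * (starRingEnd ℂ) (c z') *
          (ph φ z x * (starRingEnd ℂ) (ph φ z' x)) := by
      intro x
      rw [Complex.ofReal_pow, ← Complex.mul_conj', map_sum, Finset.sum_mul_sum]
      refine Finset.sum_congr rfl (fun z _ => Finset.sum_congr rfl (fun z' _ => ?_))
      rw [map_mul]
      ring
    simp_rw [h1]
    have hc := sch_ph_cont φ hφ
    rw [intervalIntegral.integral_finsetSum]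
    · refine Finset.sum_congr rfl (fun z _ => ?_)
      rw [intervalIntegral.integral_finsetSum]
      · refine Finset.sum_congr rfl (fun z' _ => ?_)
        rw [intervalIntegral.integral_const_mul]
        congr 1
        unfold ker
        apply intervalIntegral.integral_congr
        intro x _
        exact sch_ph_mul φ z z' x
      · intro z' _
        apply Continuous.intervalIntegrable
        exact continuous_const.mul ((hc z).mul (Complex.continuous_conj.comp (hc z')))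
    · intro z _
      apply Continuous.intervalIntegrable
      exact continuous_finsetSum _ (fun z' _ =>
        continuous_const.mul ((hc z).mul (Complex.continuous_conj.comp (hc z'))))
  have hnn : 0 ≤ ∫ x in (-1 : ℝ)..1, ‖∑ z ∈ Z, c z * ph φ z x‖ ^ 2 := by
    apply intervalIntegral.integral_nonneg (by norm_num)
    intro x _
    positivity
  have h2 : ∫ x in (-1 : ℝ)..1, ‖∑ z ∈ Z, c z * ph φ z x‖ ^ 2 =
      ‖∑ z ∈ Z, ∑ z' ∈ Z, c z * (starRingEnd ℂ) (c z') *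
        ker φ (sz z - sz z') (mz z - mz z')‖ := by
    rw [← hint, Complex.norm_real, Real.norm_of_nonneg hnn]
  rw [h2]
  have hsymm : ∑ z ∈ Z, ∑ z' ∈ Z, ‖c z'‖ ^ 2 * ‖ker φ (sz z - sz z') (mz z - mz z')‖ =
      ∑ z ∈ Z, ∑ z' ∈ Z, ‖c z‖ ^ 2 * ‖ker φ (sz z - sz z') (mz z - mz z')‖ := by
    rw [Finset.sum_comm]
    refine Finset.sum_congr rfl (fun z _ => Finset.sum_congr rfl (fun z' _ => ?_))
    rw [sch_ker_symm]
  calc ‖∑ z ∈ Z, ∑ z' ∈ Z, c z * (starRingEnd ℂ) (c z') *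
        ker φ (sz z - sz z') (mz z - mz z')‖
      ≤ ∑ z ∈ Z, ∑ z' ∈ Z, ‖c z * (starRingEnd ℂ) (c z') *
        ker φ (sz z - sz z') (mz z - mz z')‖ :=
        (norm_sum_le _ _).trans (Finset.sum_le_sum (fun z _ => norm_sum_le _ _))
    _ ≤ ∑ z ∈ Z, ∑ z' ∈ Z, (‖c z‖ ^ 2 * ‖ker φ (sz z - sz z') (mz z - mz z')‖ +
          ‖c z'‖ ^ 2 * ‖ker φ (sz z - sz z') (mz z - mz z')‖) / 2 := by
        refine Finset.sum_le_sum (fun z _ => Finset.sum_le_sum (fun z' _ => ?_))
        rw [norm_mul, norm_mul, Complex.norm_conj]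
        nlinarith [mul_nonneg (sq_nonneg (‖c z‖ - ‖c z'‖))
          (norm_nonneg (ker φ (sz z - sz z') (mz z - mz z')))]
    _ = ∑ z ∈ Z, ∑ z' ∈ Z, ‖c z‖ ^ 2 * ‖ker φ (sz z - sz z') (mz z - mz z')‖ := by
        simp_rw [← Finset.sum_div, Finset.sum_add_distrib]
        rw [hsymm]
        ring
    _ = ∑ z ∈ Z, ‖c z‖ ^ 2 * ∑ z' ∈ Z, ‖ker φ (sz z - sz z') (mz z - mz z')‖ := by
        simp_rw [Finset.mul_sum]
    _ ≤ ∑ z ∈ Z, ‖c z‖ ^ 2 * R :=
        Finset.sum_le_sum (fun z hz => mul_le_mul_of_nonneg_left (hrow z hz) (by positivity))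
    _ = R * ∑ z ∈ Z, ‖c z‖ ^ 2 := by
        rw [← Finset.sum_mul, mul_comm]

end Pool.Agent.H79.QN
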