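import Pool.Agent.H79.QN.Stmts4

/-!
# Row EXD of the board `qn` (helper70)
-/

set_option autoImplicit false

namespace Pool.Agent.H79.QN

theorem exd : S_EXD := by
  intro k f g hg hfg j hj x hx
  rw [iteratedDerivWithin_congr hfg hx]
  refine iteratedDerivWithin_eq_iteratedDeriv (uniqueDiffOn_Icc (by norm_num)) ?_ hx
  exact (hg.of_le (by exact_mod_cast hj)).contDiffAt

end Pool.Agent.H79.QN
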