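import Pool.Agent.H79.QN.Stmts3

/-!
# Row KEJ of the board `qn` (helper70; adapted from helper45's row KER)
-/

set_option autoImplicit false

namespace Pool.Agent.H79.QN

open Finset

theorem kej_norm_e (t : ℝ) : ‖e t‖ = 1 := by
  unfold e
  rw [show (2 * Real.pi * t * Complex.I : ℂ) = ((2 * Real.pi * t : ℝ) : ℂ) * Complex.I by
    push_cast; ring]
  exact Complex.norm_exp_ofReal_mul_I _

theorem kej_mono {φ : ℝ → ℝ} {a b : ℝ} (h2 : ContDiff ℝ 1 (deriv φ))
    (hne : ∀ x ∈ Set.Icc a b, deriv (deriv φ) x ≠ 0) :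
    MonotoneOn (deriv φ) (Set.Icc a b) ∨ AntitoneOn (deriv φ) (Set.Icc a b) := by
  have hd : Differentiable ℝ (deriv φ) := h2.differentiable one_ne_zero
  have h3 := hasDerivWithinAt_forall_lt_or_forall_gt_of_forall_ne (convex_Icc a b)
    (fun x _ => (hd x).hasDerivAt.hasDerivWithinAt) hne
  rcases h3 with h3 | h3
  · right
    apply antitoneOn_of_deriv_nonpos (convex_Icc _ _) hd.continuous.continuousOn
      hd.differentiableOn
    intro x hx
    exact (h3 x (interior_subset hx)).le
  · left
    apply monotoneOn_of_deriv_nonneg (convex_Icc _ _) hd.continuous.continuousOn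
      hd.differentiableOn
    intro x hx
    exact (h3 x (interior_subset hx)).le

theorem kej (hF : S_FDT) (hS : S_SDT) : S_KEJ := by
  intro φ hs2 hφd1
  have hd : Differentiable ℝ φ := hs2.differentiable two_ne_zero
  have h1 : ContDiff ℝ 1 (deriv φ) := by
    have h : ContDiff ℝ (1 + 1) φ := by
      have e : (1 + 1 : WithTop ℕ∞) = 2 := by norm_num
      rw [e]
      exact hs2
    exact (contDiff_succ_iff_deriv.1 h).2.2
  have hc1 : Continuous (deriv φ) := h1.continuous
  have hd1 : Differentiable ℝ (deriv φ) := h1.differentiable one_ne_zero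
  have hne : (Set.Icc (-1 : ℝ) 1).Nonempty := ⟨0, by norm_num⟩
  obtain ⟨x1, hx1, hm1⟩ := isCompact_Icc.exists_isMinOn hne (hc1.abs.continuousOn)
  obtain ⟨x3, hx3, hm3⟩ := isCompact_Icc.exists_isMaxOn hne (hc1.abs.continuousOn)
  set α : ℝ := |deriv φ x1| with hα
  set β : ℝ := |deriv φ x3| with hβ
  have hα0 : 0 < α := abs_pos.2 (hφd1 x1 hx1)
  have hαx : ∀ x ∈ Set.Icc (-1 : ℝ) 1, α ≤ |deriv φ x| := fun x hx => hm1 hx
  have hβx : ∀ x ∈ Set.Icc (-1 : ℝ) 1, |deriv φ x| ≤ β := fun x hx => hm3 hx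
  have hβ0 : 0 < β := hα0.trans_le ((hαx x1 hx1).trans (hβx x1 hx1))
  -- the phase
  have hθ : ∀ u k : ℝ, ContDiff ℝ 2 (fun x => u * x + k * φ x) := fun u k =>
    (contDiff_const.mul contDiff_id).add (contDiff_const.mul hs2)
  have hdθ : ∀ u k : ℝ, deriv (fun x => u * x + k * φ x) = fun x => u + k * deriv φ x := by
    intro u k
    funext x
    have h : HasDerivAt (fun x => u * x + k * φ x) (u * 1 + k * deriv φ x) x :=
      ((hasDerivAt_id x).const_mul u).add ((hd x).hasDerivAt.const_mul k)
    rw [h.deriv, mul_one]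
  have hddθ : ∀ u k : ℝ, deriv (deriv (fun x => u * x + k * φ x)) =
      fun x => k * deriv (deriv φ) x := by
    intro u k
    rw [hdθ]
    funext x
    have h : HasDerivAt (fun x => u + k * deriv φ x) (k * deriv (deriv φ) x) x :=
      ((hd1 x).hasDerivAt.const_mul k).const_add u
    exact h.deriv
  set A : ℝ := 8 * Real.sqrt (2 * β) with hA
  have hA0 : 0 ≤ A := by positivity
  have hα2 : 0 < 2 / α := by positivity
  refine ⟨1 + 2 / α, 2 + 2 / α + A, by linarith, by linarith, ?_⟩
  intro a b μ ha hab hb hμ0 hμ1 hμx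
  have hsub : Set.Icc a b ⊆ Set.Icc (-1 : ℝ) 1 := Set.Icc_subset_Icc ha hb
  have hsμ : 0 < Real.sqrt μ := Real.sqrt_pos.2 hμ0
  have hsμ1 : Real.sqrt μ ≤ 1 := Real.sqrt_le_one.2 hμ1
  have hbig : ∀ X : ℝ, 0 ≤ X → X ≤ X / Real.sqrt μ := by
    intro X hX
    rw [le_div_iff₀ hsμ]
    nlinarith
  have hmon := kej_mono (a := a) (b := b) h1 (fun x hx h0 => by
    have := hμx x hx
    rw [h0, abs_zero] at this
    linarith)
  have hmonθ : ∀ u k : ℝ, MonotoneOn (deriv (fun x => u * x + k * φ x)) (Set.Icc a b) ∨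
      AntitoneOn (deriv (fun x => u * x + k * φ x)) (Set.Icc a b) := by
    intro u k
    rw [hdθ]
    rcases le_total 0 k with hk | hk
    · rcases hmon with hm | hm
      · left
        intro x hx y hy hxy
        have := mul_le_mul_of_nonneg_left (hm hx hy hxy) hk
        show u + k * deriv φ x ≤ u + k * deriv φ y
        linarith
      · right
        intro x hx y hy hxy
        have := mul_le_mul_of_nonneg_left (hm hx hy hxy) hk
        show u + k * deriv φ y ≤ u + k * deriv φ x
        linarith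
    · rcases hmon with hm | hm
      · right
        intro x hx y hy hxy
        have := mul_le_mul_of_nonpos_left (hm hx hy hxy) hk
        show u + k * deriv φ y ≤ u + k * deriv φ x
        linarith
      · left
        intro x hx y hy hxy
        have := mul_le_mul_of_nonpos_left (hm hx hy hxy) hk
        show u + k * deriv φ x ≤ u + k * deriv φ y
        linarith
  have hFD : ∀ (u k : ℤ) (l : ℝ), 0 < l → (∀ x ∈ Set.Icc a b, l ≤ |(u : ℝ) + k * deriv φ x|) →
      ‖kerJ φ a b u k‖ ≤ 1 / l := by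
    intro u k l hl hb
    have := hF (fun x => (u : ℝ) * x + (k : ℝ) * φ x) a b l hab (hθ _ _)
      (hmonθ _ _) hl (by rw [hdθ]; exact hb)
    exact this
  refine ⟨?_, ?_, ?_⟩
  · have h := intervalIntegral.norm_integral_le_of_norm_le_const (a := a) (b := b)
      (f := fun x => e (((0 : ℤ) : ℝ) * x + ((0 : ℤ) : ℝ) * φ x)) (C := 1)
      (fun x _ => (kej_norm_e _).le)
    unfold kerJ
    refine h.trans ?_
    rw [one_mul, abs_of_nonneg (by linarith)]
    have h2 := hbig (2 + 2 / α + A) (by linarith)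
    linarith
  · intro u k hu hk
    have hu1 : (1 : ℝ) ≤ |(u : ℝ)| := by
      have := Int.one_le_abs hu
      exact_mod_cast this
    have hsu : 0 < Real.sqrt |(u : ℝ)| := Real.sqrt_pos.2 (by linarith)
    by_cases hcase : 2 * β * |(k : ℝ)| ≤ |(u : ℝ)|
    · have h2 := hFD u k (|(u : ℝ)| / 2) (by linarith) (by
        intro x hx
        have h3 := hβx x (hsub hx)
        have h4 : |(k : ℝ) * deriv φ x| ≤ |(k : ℝ)| * β := by
          rw [abs_mul]
          exact mul_le_mul_of_nonneg_left h3 (abs_nonneg _)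
        have h5 : |(u : ℝ)| ≤ |(u : ℝ) + k * deriv φ x| + |(k : ℝ) * deriv φ x| := by
          have := abs_sub (( u : ℝ) + k * deriv φ x) ((k : ℝ) * deriv φ x)
          rwa [add_sub_cancel_right] at this
        linarith)
      refine h2.trans ?_
      have h6 : Real.sqrt |(u : ℝ)| ≤ |(u : ℝ)| := by
        rw [Real.sqrt_le_left (by linarith)]
        nlinarith
      calc 1 / (|(u : ℝ)| / 2) = 2 / |(u : ℝ)| := by field_simp
        _ ≤ 2 / Real.sqrt |(u : ℝ)| := div_le_div_of_nonneg_left (by norm_num) hsu h6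
        _ ≤ (2 + 2 / α + A) / Real.sqrt μ / Real.sqrt |(u : ℝ)| := by
          apply div_le_div_of_nonneg_right _ hsu.le
          have h7 := hbig (2 + 2 / α + A) (by linarith)
          linarith
    · rw [not_le] at hcase
      have hk0 : 0 < |(k : ℝ)| := by
        by_contra hcon
        have : |(k : ℝ)| = 0 := le_antisymm (not_lt.1 hcon) (abs_nonneg _)
        rw [this, mul_zero] at hcase
        linarith
      have h2 := hS (fun x => (u : ℝ) * x + (k : ℝ) * φ x) a b (|(k : ℝ)| * μ) hab
        (hθ _ _) (by positivity) (by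
          rw [hddθ]
          intro x hx
          show |(k : ℝ)| * μ ≤ |(k : ℝ) * deriv (deriv φ) x|
          rw [abs_mul]
          exact mul_le_mul_of_nonneg_left (hμx x hx) (abs_nonneg _))
      have h3 : ‖kerJ φ a b u k‖ ≤ 8 / Real.sqrt (|(k : ℝ)| * μ) := h2
      refine h3.trans ?_
      have h4 : 8 / Real.sqrt (|(k : ℝ)| * μ) ≤ A / Real.sqrt μ / Real.sqrt |(u : ℝ)| := by
        rw [div_div, ← Real.sqrt_mul hμ0.le, div_le_div_iff₀ (Real.sqrt_pos.2 (by positivity))
          (Real.sqrt_pos.2 (by positivity)), hA, mul_assoc, ← Real.sqrt_mul (by positivity)]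
        apply mul_le_mul_of_nonneg_left _ (by norm_num)
        apply Real.sqrt_le_sqrt
        nlinarith
      refine h4.trans ?_
      apply div_le_div_of_nonneg_right _ hsu.le
      exact div_le_div_of_nonneg_right (by linarith) hsμ.le
  · intro u k hk hku
    have hk1 : (1 : ℝ) ≤ |(k : ℝ)| := by
      have := Int.one_le_abs hk
      exact_mod_cast this
    have hu : |(u : ℝ)| ≤ α * |(k : ℝ)| / 2 := by
      have h2 : 2 / α * |(u : ℝ)| ≤ |(k : ℝ)| := by
        have := abs_nonneg (u : ℝ)
        nlinarith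
      have h3 : α / 2 * (2 / α * |(u : ℝ)|) ≤ α / 2 * |(k : ℝ)| :=
        mul_le_mul_of_nonneg_left h2 (by positivity)
      have h4 : α / 2 * (2 / α * |(u : ℝ)|) = |(u : ℝ)| := by field_simp
      rw [h4] at h3
      linarith
    have h2 := hFD u k (α * |(k : ℝ)| / 2) (by positivity) (by
      intro x hx
      have h3 := hαx x (hsub hx)
      have h4 : |(k : ℝ)| * α ≤ |(k : ℝ) * deriv φ x| := by
        rw [abs_mul]
        exact mul_le_mul_of_nonneg_left h3 (abs_nonneg _)
      have h5 : |(k : ℝ) * deriv φ x| ≤ |(u : ℝ) + k * deriv φ x| + |(u : ℝ)| := by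
        have := abs_sub (( u : ℝ) + k * deriv φ x) (u : ℝ)
        rwa [add_sub_cancel_left] at this
      linarith)
    refine h2.trans ?_
    have e1 : 1 / (α * |(k : ℝ)| / 2) = (2 / α) / |(k : ℝ)| := by field_simp
    rw [e1]
    apply div_le_div_of_nonneg_right _ (by linarith)
    have h7 := hbig (2 + 2 / α + A) (by linarith)
    linarith

end Pool.Agent.H79.QN
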